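import Pool.Agent.K6.H12.HA.Core
import Pool.Agent.K6.H12.HA.CYC
import Pool.Agent.K6.H12.HA.SPL
import Pool.Agent.K6.H12.HA.RAT

/-!
MP_6af536_nt, Q1: the higher arithmetic degrees of all subvarieties exist for all surjective
endomorphisms.

Let `X` be a normal projective variety over a number field, `f : X → X` a surjective endomorphism, `H`
an ample line bundle with an arithmetic model `(𝒳, H̄)`, `H̄` an ample Hermitian line bundle, and
`V ⊂ X` a subvariety of dimension `k`. By the projection formula the arithmetic intersection number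
`(π₂^* H̄ ^ (k + 1) · π₁^# 𝒱)` on the graph of the `n`-th iterate is the height `h_H̄(f_*^n V)` of the
cycle `f_*^n V = deg(f^n | V) f^n(V)`, where the height of a cycle `Z` of dimension `k` is the
arithmetic intersection number `(H̄ ^ (k + 1) · 𝒵)` for the Zariski closure `𝒵` of `Z`.

Theorem. (1) The limit `α_{k+1}(f, V) = lim h_H̄(f_*^n V) ^ (1 / n)` exists. The limit
`λ_k(f, V) = lim (H ^ k · f_*^n V) ^ (1 / n)` exists too, and `1 ≤ λ_k(f, V) ≤ α_{k+1}(f, V)`. The number
`λ_k(f, V)` is the absolute value of a product of `k` eigenvalues of `f^*` on `Pic(X)_ℂ`, and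
`α_{k+1}(f, V)` is equal to `λ_k(f, V)` or to the absolute value of a product of `k + 1` eigenvalues.
(2) So for given `f` and `k` there are only finitely many possible values for `α_{k+1}(f, V)`.

For points (`k = 0`) this is a theorem of Kawaguchi and Silverman. For the polarized endomorphisms the
existence of the limit is known (by Zhang's canonical heights of subvarieties it is `q ^ (k + 1)` or
`q ^ k`). Q1 remains open for rational maps which are not morphisms.

What is used from Arakelov geometry is stated in the structure `Endomorphism`. Let `D_1, ..., D_r` be a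
basis of `Pic(X)_ℝ` consisting of ample line bundles (`Pic(X)` is finitely generated by the
theorems of Mordell, Weil and Néron), with ample Hermitian metrics on a model (`D̄_i`). We consider the
mixed degrees `(D_{I 1} ... D_{I k} · Z)` and the mixed heights `(D̄_{I 0} ... D̄_{I k} · Z)` of the
effective cycles `Z` of dimension `k` of `X`. They are positive and are bounded by multiples of the
degree and of the height with respect to `H`, because `C H - D_i` is ample for large `C`, and conversely
(`deg_le`, `degH_le`, `ht_le`, `htH_le`); `degH_le_htH` means that the metric of `H̄` is ample. If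
`f^* D_i = ∑ a_ij D_j` then the mixed degrees of `f_* Z` are given by the tensor power of the matrix `a`
(`deg_push`, the projection formula). As the metrics of `f^* D̄_i` and `∑ a_ij D̄_j` differ by a bounded
function this holds for the mixed heights up to an error which is bounded by a multiple of the degree
of `Z` (`ht_push`).

Proof. Let `v_n` be the vector of the mixed heights of `f_*^n V`. It satisfies
`v_(n+1) = B v_n + e_n` where `B` is the tensor power of `a` and `‖e_n‖ ≤ C deg(f_*^n V) ≤ C' ‖v_n‖`. By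
positivity `‖v_n‖` is comparable with the height of `f_*^n V`; this excludes cancellations. The degrees are
the norms of an orbit of a linear map up to bounded factors; let `ρ` be their growth rate. On the sum of
the generalized eigenspaces of `B` for the eigenvalues of absolute value greater than `ρ` there is a
canonical height vector `v̂`, the limit of the `B ^ (-n) π(v_n)`, and `v_n = B ^ n v̂ + O((ρ + ε) ^ n)`. If
`v̂ ≠ 0` the growth rate of `v_n` is that of `B ^ n v̂`, and if `v̂ = 0` it is `ρ`.

Pieces by helper29 (CYC), helper21 (SPL), helper52 (RAT).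
-/

set_option autoImplicit false

open Filter Topology

namespace Pool.Agent.Results.MP_6af536_nt.Endomorphisms

/-- A surjective endomorphism `f` of a normal projective variety `X` over a number field, its action on
the effective cycles of dimension `k`, and their mixed degrees and heights. -/
structure Endomorphism (k : ℕ) where
  /-- The effective nonzero cycles of dimension `k` on `X`. -/
  Cyc : Type
  /-- The push-forward `Z ↦ f_* Z` of cycles. -/
  push : Cyc → Cyc
  /-- The number of elements of the basis `D_1, ..., D_r` of `Pic(X)_ℝ` of ample line bundles. -/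
  r : ℕ
  /-- The matrix of `f^*` on `Pic(X)_ℝ`: `f^* D_i = ∑ a_ij D_j`. -/
  a : Matrix (Fin r) (Fin r) ℝ
  /-- The mixed degrees `(D_{I 1} ... D_{I k} · Z)`. -/
  deg : Cyc → (Fin k → Fin r) → ℝ
  /-- The degree `(H ^ k · Z)`. -/
  degH : Cyc → ℝ
  /-- The mixed heights `(D̄_{I 0} ... D̄_{I k} · Z)`. -/
  ht : Cyc → (Fin (k + 1) → Fin r) → ℝ
  /-- The height `(H̄ ^ (k + 1) · Z)`. -/
  htH : Cyc → ℝ
  /-- A constant, which does not depend on the cycles. -/
  C : ℝ
  C_pos : 0 < C
  /-- The degree is a positive integer. -/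
  one_le_degH : ∀ Z, 1 ≤ degH Z
  /-- `C H - D_i` is ample. -/
  deg_le : ∀ Z I, |deg Z I| ≤ C * degH Z
  /-- `H` is a linear combination of the `D_i`. -/
  degH_le : ∀ Z, degH Z ≤ C * ∑ I, |deg Z I|
  /-- The projection formula. -/
  deg_push : ∀ Z I, deg (push Z) I = ∑ J, (∏ s, a (I s) (J s)) * deg Z J
  /-- `C H̄ - D̄_i` is ample. -/
  ht_le : ∀ Z I, |ht Z I| ≤ C * htH Z
  /-- `H` is a linear combination of the `D_i`, and the metrics of the `D̄_i` are ample. -/
  htH_le : ∀ Z, htH Z ≤ C * ∑ I, |ht Z I|
  /-- The metric of `H̄` is ample. -/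
  degH_le_htH : ∀ Z, degH Z ≤ C * htH Z
  /-- The projection formula; the metrics of `f^* D̄_i` and of `∑ a_ij D̄_j` differ by bounded
  functions. -/
  ht_push : ∀ Z I, |ht (push Z) I - ∑ J, (∏ s, a (I s) (J s)) * ht Z J| ≤ C * degH Z

variable {k : ℕ}

/-- `μ` is an eigenvalue of `f^*` on `Pic(X)_ℂ`. -/
def IsEigenvalue (X : Endomorphism k) (μ : ℂ) : Prop :=
  Module.End.HasEigenvalue (Matrix.toLin' (X.a.map Complex.ofRealHom)) μ

/-- `t` is the absolute value of a product of `m` eigenvalues of `f^*` on `Pic(X)_ℂ`. -/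
def IsProduct (X : Endomorphism k) (m : ℕ) (t : ℝ) : Prop :=
  ∃ μ : Fin m → ℂ, (∀ s, IsEigenvalue X (μ s)) ∧ t = ‖∏ s, μ s‖

/-- `α` is the arithmetic degree `α_{k+1}(f, V)`: the limit of the `n`-th roots of the heights of the
cycles `f_*^n V`. -/
def IsArithmeticDegree (X : Endomorphism k) (V : X.Cyc) (α : ℝ) : Prop :=
  Tendsto (fun n : ℕ => X.htH (X.push^[n] V) ^ (1 / (n : ℝ))) atTop (𝓝 α)

/-- `β` is the growth rate `λ_k(f, V)` of the degrees of the cycles `f_*^n V`. -/
def IsDegreeGrowth (X : Endomorphism k) (V : X.Cyc) (β : ℝ) : Prop :=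
  Tendsto (fun n : ℕ => X.degH (X.push^[n] V) ^ (1 / (n : ℝ))) atTop (𝓝 β)

open Pool.Agent.K6.H12.HA in
/-- (1) Existence of the limits, (2) finitely many values. -/
theorem result (k : ℕ) (X : Endomorphism k) :
    (∀ V : X.Cyc, ∃ α β : ℝ, IsArithmeticDegree X V α ∧ IsDegreeGrowth X V β ∧ 1 ≤ β ∧ β ≤ α ∧
      IsProduct X k β ∧ (α = β ∨ IsProduct X (k + 1) α)) ∧
    {α : ℝ | ∃ V : X.Cyc, IsArithmeticDegree X V α}.Finite := by
  have hfin : ∀ m : ℕ, {t : ℝ | IsProduct X m t}.Finite := by
    intro m
    have h1 : {μ : Fin m → ℂ | ∀ s, μ s ∈ {ν : ℂ | IsEigenvalue X ν}}.Finite :=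
      Set.Finite.pi' fun _ => Module.End.finite_hasEigenvalue _
    refine (h1.image fun μ => ‖∏ s, μ s‖).subset ?_
    rintro t ⟨μ, hμ, rfl⟩
    exact ⟨μ, hμ, rfl⟩
  have hprod : ∀ (m : ℕ) (μ : ℂ), Module.End.HasEigenvalue
      (Matrix.toLin' (tp m (X.a.map Complex.ofRealHom))) μ → IsProduct X m ‖μ‖ := by
    intro m μ hμ
    obtain ⟨ν, hν, h1⟩ := t_RAT X.r m (X.a.map Complex.ofRealHom) μ hμ
    exact ⟨ν, hν, by rw [h1]⟩
  have hmain : ∀ V : X.Cyc, ∃ α β : ℝ, IsArithmeticDegree X V α ∧ IsDegreeGrowth X V β ∧ 1 ≤ β ∧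
      β ≤ α ∧ IsProduct X k β ∧ (α = β ∨ IsProduct X (k + 1) α) := by
    intro V
    obtain ⟨μ, hμ, hμ1, hlim⟩ := deg_growth t_CYC X.a (fun n => X.deg (X.push^[n] V))
      (fun n => X.degH (X.push^[n] V)) X.C (fun n => X.one_le_degH _) (fun n => X.deg_le _)
      (fun n => X.degH_le _) (fun n I => by
        rw [Function.iterate_succ_apply']
        exact X.deg_push _ I)
    obtain ⟨α, h1, h2, h3⟩ := ht_growth (t_PER t_CYC t_SPL) X.a (fun n => X.ht (X.push^[n] V))
      (fun n => X.degH (X.push^[n] V)) (fun n => X.htH (X.push^[n] V)) X.C ‖μ‖ X.C_pos hμ1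
      (fun n => X.one_le_degH _) hlim (fun n => X.ht_le _) (fun n => X.htH_le _)
      (fun n => X.degH_le_htH _) (fun n I => by
        rw [Function.iterate_succ_apply']
        exact X.ht_push _ I)
    refine ⟨α, ‖μ‖, h2, hlim, hμ1, h1, hprod k μ hμ, ?_⟩
    rcases h3 with h3 | ⟨ν, hν, h3⟩
    · exact Or.inl h3
    · exact Or.inr (by rw [h3]; exact hprod (k + 1) ν hν)
  refine ⟨hmain, ((hfin k).union (hfin (k + 1))).subset ?_⟩
  rintro α ⟨V, hα⟩
  obtain ⟨α', β, h1, -, -, -, h2, h3⟩ := hmain V
  have h4 : α = α' := tendsto_nhds_unique hα h1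
  rw [h4]
  rcases h3 with h3 | h3
  · exact Or.inl (by rw [h3]; exact h2)
  · exact Or.inr h3

end Pool.Agent.Results.MP_6af536_nt.Endomorphisms
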